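import Mathlib

/-! Scale-free percolation on `ℤ` with edge-weights: exploding paths. -/

namespace Pool.Agent.H120Z.SFP

/-- Adjacency in scale-free percolation on `ℤ` with long-range parameter `α` and percolation
parameter `lam`, given the vertex-weights `W` and the variables `E` (uniform on `[0,1]` in the
model) that decide the presence of long edges: nearest neighbours are joined, and `x`, `y` with
`|x - y| > 1` are joined when `E {x,y} ≤ 1 - exp (- lam W_x W_y / |x - y| ^ α)`. -/
def Adj (α lam : ℝ) (W : ℤ → ℝ) (E : Sym2 ℤ → ℝ) (x y : ℤ) : Prop :=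
  |x - y| = 1 ∨
    (1 < |x - y| ∧ E s(x, y) ≤ 1 - Real.exp (-(lam * W x * W y / |(x : ℝ) - (y : ℝ)| ^ α)))

/-- `v` is an exploding path from `0`: an infinite self-avoiding path in the graph `adj` that
starts at `0` and has finite `L`-length. -/
def IsExploding (adj : ℤ → ℤ → Prop) (L : Sym2 ℤ → ℝ) (v : ℕ → ℤ) : Prop :=
  v 0 = 0 ∧ Function.Injective v ∧ (∀ n, adj (v n) (v (n + 1))) ∧
    Summable fun n => L s(v n, v (n + 1))

/-- The `L`-length of an infinite path. -/
noncomputable def len (L : Sym2 ℤ → ℝ) (v : ℕ → ℤ) : ℝ := ∑' n, L s(v n, v (n + 1))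

/-- `v` is a shortest exploding path from `0`: it minimises the `L`-length among exploding paths
from `0`. -/
def IsShortest (adj : ℤ → ℤ → Prop) (L : Sym2 ℤ → ℝ) (v : ℕ → ℤ) : Prop :=
  IsExploding adj L v ∧ ∀ u, IsExploding adj L u → len L v ≤ len L u

/-- The generalised inverse `F⁻¹(y) = inf {t : P(L ≤ t) ≥ y}` of the law `μ`. -/
noncomputable def genInv (μ : MeasureTheory.Measure ℝ) (y : ℝ) : ℝ :=
  sInf {t : ℝ | y ≤ μ.real (Set.Iic t)}

end Pool.Agent.H120Z.SFP
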