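import Pool.Agent.H120Z.SFP.Paths

/-! The deterministic part of the argument. -/

namespace Pool.Agent.H120Z.SFP

open Filter Topology

/-- weight class -/
def cl (m : ℕ) : Set ℝ := Set.Ioc ((64 : ℝ) ^ m) (64 ^ (m + 1))

/-- cost of one greedy step -/
noncomputable def uu (D m : ℕ) : ℝ := 64 * (D + 2) * (m + 1) / 2 ^ m

def Good (W : ℤ → ℝ) (E L : Sym2 ℤ → ℝ) (D m : ℕ) (x : ℤ) : Prop :=
  ∃ y : ℤ, x < y ∧ y ≤ x + 16 ^ m ∧ W y ∈ cl (m + 1) ∧ E s(x, y) ≤ 1 / 2 ∧ L s(x, y) ≤ uu D m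

noncomputable def HH (k J : ℕ) : ℝ := 256 * (50 * k + 2) * (4 * J + 1) * 2 ^ (J / k + 1)

def EvA (W : ℤ → ℝ) (E L : Sym2 ℤ → ℝ) (k J n : ℕ) (p : Fin (n + 1) → ℤ × ℕ) : Prop :=
  Function.Injective (fun i => (p i).1) ∧ |(p 0).1| < 2 ^ (J + 1) ∧
    (∀ i : Fin n, (p i.castSucc).2 ≤ 4 * J) ∧ 4 * J < (p (Fin.last n)).2 ∧
    (∀ i, W (p i).1 ∈ cl (p i).2) ∧
    (∀ i : Fin n, E s((p i.castSucc).1, (p i.succ).1) ≤
      64 ^ ((p i.castSucc).2 + (p i.succ).2 + 2) / |((p i.succ).1 : ℝ) - (p i.castSucc).1| ^ 3) ∧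
    (∀ i : Fin n, L s((p i.castSucc).1, (p i.succ).1) ≤ HH k J / 2 ^ (p i.castSucc).2)

def EvB (E : Sym2 ℤ → ℝ) (k J : ℕ) : Prop :=
  ∃ x y : ℤ, |x| ≤ (k + 1) * 2 ^ (49 * J) ∧ 2 ^ (49 * J) < |y - x| ∧
    E s(x, y) ≤ 64 ^ (8 * J + 2) / |(y : ℝ) - x| ^ 3

variable {W : ℤ → ℝ} {E L : Sym2 ℤ → ℝ}

lemma exists_cl {w : ℝ} (hw : 1 < w) : ∃ m, w ∈ cl m := by
  obtain ⟨n, h1, h2⟩ := exists_nat_pow_near_of_lt_one (x := w⁻¹) (y := (64 : ℝ)⁻¹)
    (by positivity) (inv_le_one_of_one_le₀ hw.le) (by norm_num) (by norm_num)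
  have hw0 : 0 < w := by linarith
  rw [inv_pow] at h1 h2
  rw [inv_lt_inv₀ (by positivity) hw0] at h1
  rw [inv_le_inv₀ hw0 (by positivity)] at h2
  rcases h2.lt_or_eq with h | h
  · exact ⟨n, h, h1.le⟩
  · rcases n with _ | n
    · simp at h; linarith
    · refine ⟨n, ?_, h.ge⟩
      rw [← h]
      exact pow_lt_pow_right₀ (by norm_num) (Nat.lt_succ_self n)

lemma adj_bound (hE : ∀ e, E e ≤ 1) {x y : ℤ} {m m' : ℕ} (hx : W x ∈ cl m) (hy : W y ∈ cl m')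
    (h : Adj 3 1 W E x y) : E s(x, y) ≤ 64 ^ (m + m' + 2) / |(y : ℝ) - x| ^ 3 := by
  rcases h with h | ⟨-, h⟩
  · have h1 : |(y : ℝ) - x| = 1 := by
      rw [abs_sub_comm]; exact_mod_cast h
    rw [h1, one_pow, div_one]
    exact (hE _).trans (one_le_pow₀ (by norm_num))
  · refine h.trans ?_
    have h2 := Real.add_one_le_exp (-(1 * W x * W y / |(x : ℝ) - (y : ℝ)| ^ (3 : ℝ)))
    have h3 : |(x : ℝ) - (y : ℝ)| ^ (3 : ℝ) = |(y : ℝ) - x| ^ 3 := by
      rw [abs_sub_comm, ← Real.rpow_natCast]; norm_num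
    rw [h3] at h2 ⊢
    have h4 : 1 * W x * W y / |(y : ℝ) - x| ^ 3 ≤ 64 ^ (m + m' + 2) / |(y : ℝ) - x| ^ 3 := by
      refine div_le_div_of_nonneg_right ?_ (by positivity)
      rw [one_mul, show m + m' + 2 = (m + 1) + (m' + 1) by ring, pow_add]
      exact mul_le_mul hx.2 hy.2 (le_trans (by positivity) hy.1.le) (by positivity)
    linarith

lemma adj_of_good {x y : ℤ} {m : ℕ} (hx : W x ∈ cl m) (hy : W y ∈ cl (m + 1)) (h1 : x < y)
    (h2 : y ≤ x + 16 ^ m) (hE : E s(x, y) ≤ 1 / 2) : Adj 3 1 W E x y := by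
  by_cases h : |x - y| = 1
  · exact Or.inl h
  refine Or.inr ⟨?_, hE.trans ?_⟩
  · have : 1 ≤ |x - y| := Int.one_le_abs (by omega)
    omega
  · have h3 : |(x : ℝ) - (y : ℝ)| ^ (3 : ℝ) = ((y : ℝ) - x) ^ 3 := by
      have : (x : ℝ) < y := by exact_mod_cast h1
      rw [abs_sub_comm, abs_of_pos (by linarith), ← Real.rpow_natCast]; norm_num
    have h4 : (0 : ℝ) < (y : ℝ) - x := by
      have : (x : ℝ) < y := by exact_mod_cast h1
      linarith
    have h5 : (y : ℝ) - x ≤ 16 ^ m := by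
      have : (y : ℝ) ≤ x + 16 ^ m := by exact_mod_cast h2
      linarith
    have h6 : ((y : ℝ) - x) ^ 3 ≤ 64 ^ m * 64 ^ m := by
      calc ((y : ℝ) - x) ^ 3 ≤ (16 ^ m) ^ 3 := pow_le_pow_left₀ h4.le h5 3
        _ = 64 ^ m * 64 ^ m := by rw [← pow_mul, mul_comm, pow_mul, ← mul_pow]; norm_num
    have h7 : 64 ^ m * 64 ^ m ≤ W x * W y :=
      mul_le_mul hx.1.le ((pow_le_pow_right₀ (by norm_num) (Nat.le_succ m)).trans hy.1.le)
        (by positivity) (le_trans (by positivity) hx.1.le)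
    have h8 : 1 ≤ 1 * W x * W y / ((y : ℝ) - x) ^ 3 := by
      rw [one_mul, le_div_iff₀ (by positivity)]; linarith
    rw [h3]
    have h9 : Real.exp (-(1 * W x * W y / ((y : ℝ) - x) ^ 3)) ≤ Real.exp (-1) :=
      Real.exp_le_exp.2 (by linarith)
    have h10 := Real.exp_neg_one_lt_d9
    linarith

lemma uu_sum (D m : ℕ) : Summable (fun i => uu D (m + i)) ∧
    ∑' i, uu D (m + i) ≤ 256 * (D + 2) * (m + 1) / 2 ^ m := by
  have h1 : HasSum (fun i : ℕ => ((i : ℝ) + 1) * (1 / 2) ^ i) 4 := by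
    have h2 := hasSum_coe_mul_geometric_of_norm_lt_one (r := (1 / 2 : ℝ)) (by norm_num)
    have h3 := hasSum_geometric_two
    have := h2.add h3
    have e1 : (fun i : ℕ => ((i : ℝ) + 1) * (1 / 2) ^ i) =
        fun b : ℕ => (b : ℝ) * (1 / 2) ^ b + (1 / 2) ^ b := by ext i; ring
    have e2 : (4 : ℝ) = 1 / 2 / (1 - 1 / 2) ^ 2 + 2 := by norm_num
    rw [e1, e2]; exact this
  have hle : ∀ i : ℕ, uu D (m + i) ≤
      (64 * (D + 2) * (m + 1) / 2 ^ m) * (((i : ℝ) + 1) * (1 / 2) ^ i) := by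
    intro i
    unfold uu
    rw [pow_add, one_div, inv_pow]
    push_cast
    have h4 : (m : ℝ) + i + 1 ≤ (m + 1) * (i + 1) := by
      have : (0 : ℝ) ≤ m * i := by positivity
      nlinarith
    calc 64 * ((D : ℝ) + 2) * (m + i + 1) / (2 ^ m * 2 ^ i)
        ≤ 64 * ((D : ℝ) + 2) * ((m + 1) * (i + 1)) / (2 ^ m * 2 ^ i) := by gcongr
      _ = _ := by field_simp
  have hnn : ∀ i : ℕ, 0 ≤ uu D (m + i) := fun i => by unfold uu; positivity
  have hs := (h1.mul_left (64 * (D + 2) * (m + 1) / 2 ^ m : ℝ))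
  have hsum := Summable.of_nonneg_of_le hnn hle hs.summable
  refine ⟨hsum, (hsum.tsum_le_tsum hle hs.summable).trans (le_of_eq ?_)⟩
  rw [hs.tsum_eq]; ring

lemma greedy (hL : ∀ e, 0 ≤ L e) {D m0 : ℕ} (hD : 4 ≤ D)
    (hG : ∀ m ≥ m0, ∀ x : ℤ, |x| ≤ 2 ^ (D * m) → Good W E L D m x)
    {m : ℕ} (hm : m0 ≤ m) {x : ℤ} (hx : |x| ≤ 2 ^ (D * m)) (hW : W x ∈ cl m) :
    ∃ y : ℕ → ℤ, y 0 = x ∧ Function.Injective y ∧ (∀ n, Adj 3 1 W E (y n) (y (n + 1))) ∧
      Summable (fun n => L s(y n, y (n + 1))) ∧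
      ∑' n, L s(y n, y (n + 1)) ≤ 256 * (D + 2) * (m + 1) / 2 ^ m := by
  have step : ∀ (i : ℕ) (a : {a : ℤ // |a| ≤ 2 ^ (D * (m + i)) ∧ W a ∈ cl (m + i)}),
      ∃ c : {a : ℤ // |a| ≤ 2 ^ (D * (m + (i + 1))) ∧ W a ∈ cl (m + (i + 1))},
        a.1 < c.1 ∧ Adj 3 1 W E a.1 c.1 ∧ L s(a.1, c.1) ≤ uu D (m + i) := by
    rintro i ⟨a, ha1, ha2⟩
    obtain ⟨y, h1, h2, h3, h4, h5⟩ := hG (m + i) (by omega) a ha1
    refine ⟨⟨y, ?_, h3⟩, h1, adj_of_good ha2 h3 h1 h2 h4, h5⟩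
    have h6 : (16 : ℤ) ^ (m + i) ≤ 2 ^ (D * (m + i)) := by
      rw [show (16 : ℤ) = 2 ^ 4 by norm_num, ← pow_mul]
      exact pow_le_pow_right₀ (by norm_num) (Nat.mul_le_mul_right _ hD)
    have h7 : (2 : ℤ) ^ (D * (m + i)) * 2 ≤ 2 ^ (D * (m + (i + 1))) := by
      rw [← pow_succ]
      exact pow_le_pow_right₀ (by norm_num) (by nlinarith)
    rw [abs_le] at ha1 ⊢
    have h8 : (0 : ℤ) < 2 ^ (D * (m + i)) := by positivity
    constructor <;> omega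
  choose f hf using step
  let y : ∀ i : ℕ, {a : ℤ // |a| ≤ 2 ^ (D * (m + i)) ∧ W a ∈ cl (m + i)} :=
    fun i => Nat.rec ⟨x, hx, hW⟩ (fun i a => f i a) i
  have hy : ∀ i, y (i + 1) = f i (y i) := fun i => rfl
  have hle : ∀ n, L s((y n).1, (y (n + 1)).1) ≤ uu D (m + n) := fun n => (hf n (y n)).2.2
  have hs := Summable.of_nonneg_of_le (fun n => hL _) hle (uu_sum D m).1
  refine ⟨fun i => (y i).1, rfl, (strictMono_nat_of_lt_succ fun n => (hf n (y n)).1).injective,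
    fun n => (hf n (y n)).2.1, hs, (hs.tsum_le_tsum hle (uu_sum D m).1).trans (uu_sum D m).2⟩

lemma exists_exploding (hL : ∀ e, 0 ≤ L e) {D m0 : ℕ} (hD : 4 ≤ D)
    (hG : ∀ m ≥ m0, ∀ x : ℤ, |x| ≤ 2 ^ (D * m) → Good W E L D m x) :
    ∃ u, IsExploding (Adj 3 1 W E) L u := by
  obtain ⟨x, h1, h2, h3, -, -⟩ := hG m0 le_rfl 0 (by simp)
  have h6 : (16 : ℤ) ^ m0 ≤ 2 ^ (D * (m0 + 1)) := by
    rw [show (16 : ℤ) = 2 ^ 4 by norm_num, ← pow_mul]
    exact pow_le_pow_right₀ (by norm_num) (by nlinarith)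
  obtain ⟨y, hy0, hyi, hya, hys, -⟩ := greedy hL hD hG (m := m0 + 1) (Nat.le_succ m0) (x := x)
    (by rw [abs_of_pos h1]; omega) h3
  obtain ⟨l, -, u, hu, -⟩ := splice (adj := Adj 3 1 W E) hL (fun i => (i : ℤ)) x.toNat rfl
    (fun a _ b _ h => by exact_mod_cast h) (fun i _ => Or.inl (by simp)) y
    (by rw [hy0]; exact (Int.toNat_of_nonneg h1.le).symm) hyi hya hys
  exact ⟨u, hu⟩

lemma det_main (hW : ∀ x, 1 < W x) (hE : ∀ e, E e ≤ 1) (hL : ∀ e, 0 ≤ L e) {k m0 : ℕ}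
    (hk1 : 1 ≤ k)
    (hG : ∀ m ≥ m0, ∀ x : ℤ, |x| ≤ 2 ^ (50 * k * m) → Good W E L (50 * k) m x)
    (hA : ∀ᶠ J in atTop, ∀ n ≤ k, ∀ p, ¬ EvA W E L k J n p)
    (hB : ∀ᶠ J in atTop, ¬ EvB E k J)
    {v : ℕ → ℤ} (hv : IsShortest (Adj 3 1 W E) L v) {b : ℝ} (hb : 1 < b) (hk : 50 < b ^ k) :
    ∃ᶠ n in atTop, |(v n : ℝ)| < Real.exp (b ^ n) := by
  classical
  by_contra hc
  rw [not_frequently] at hc
  have hc' : ∀ᶠ n in atTop, Real.exp (b ^ n) ≤ |(v n : ℝ)| := hc.mono fun n hn => not_lt.1 hn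
  have hwin := windows hb hk hc'
  obtain ⟨J0, hJ0⟩ := eventually_atTop.1 (hA.and (hB.and ((eventually_ge_atTop (k + 1)).and
    (eventually_ge_atTop (m0 * k)))))
  have hbig : ∀ᶠ n in atTop, (2 : ℝ) ^ J0 ≤ |(v n : ℝ)| := by
    filter_upwards [hc', (tendsto_pow_atTop_atTop_of_one_lt hb).eventually_ge_atTop
      ((2 : ℝ) ^ J0)] with n h1 h2
    have := Real.add_one_le_exp (b ^ n)
    linarith
  have hsmall : ∀ᶠ n in atTop, ∀ i, L s(v (n + i), v (n + i + 1)) ≤ 1 := by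
    obtain ⟨N, hN⟩ := eventually_atTop.1
      (hv.1.2.2.2.tendsto_atTop_zero.eventually_le_const (show (0 : ℝ) < 1 by norm_num))
    filter_upwards [eventually_ge_atTop N] with n hn i
    exact hN _ (by omega)
  obtain ⟨n, hn1, hn2, hn3⟩ := (hwin.and_eventually (hbig.and hsmall)).exists
  choose c hc using fun x => exists_cl (hW x)
  have hn2' : 2 ^ J0 ≤ (v n).natAbs := by
    have : ((2 ^ J0 : ℕ) : ℝ) ≤ ((v n).natAbs : ℝ) := by
      rw [Nat.cast_natAbs]; push_cast; exact hn2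
    exact_mod_cast this
  have hne : (v n).natAbs ≠ 0 := by
    have : 0 < 2 ^ J0 := by positivity
    omega
  set J := Nat.log 2 (v n).natAbs with hJ
  have hJ1 : 2 ^ J ≤ (v n).natAbs := Nat.pow_log_le_self 2 hne
  have hJ2 : (v n).natAbs < 2 ^ (J + 1) := Nat.lt_pow_succ_log_self (by norm_num) _
  have hJ3 : J0 ≤ J := Nat.le_log_of_pow_le (by norm_num) hn2'
  obtain ⟨hAJ, hBJ, hJk, hJm⟩ := hJ0 J hJ3
  have hJ1' : (2 : ℤ) ^ J ≤ |v n| := by rw [← Int.natCast_natAbs]; exact_mod_cast hJ1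
  have hJ2' : |v n| < (2 : ℤ) ^ (J + 1) := by rw [← Int.natCast_natAbs]; exact_mod_cast hJ2
  set A : ℤ := 2 ^ (49 * J) with hAdef
  have hA1 : (2 : ℤ) ^ (J + 1) ≤ A := pow_le_pow_right₀ (by norm_num) (by omega)
  have hA0 : 0 < A := by positivity
  have hA2 : ((k : ℤ) + 1) * A ≤ 2 ^ (50 * J) := by
    have h1 : (k : ℤ) + 1 ≤ 2 ^ J := by
      have : J < 2 ^ J := Nat.lt_two_pow_self
      have h2 : k + 1 ≤ 2 ^ J := by omega
      exact_mod_cast h2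
    rw [show 50 * J = J + 49 * J by ring, pow_add]
    exact mul_le_mul_of_nonneg_right h1 hA0.le
  have hpos : ∀ i, (∀ j < i, |v (n + j + 1) - v (n + j)| ≤ A) → |v (n + i)| ≤ (i + 1) * A := by
    intro i
    induction i with
    | zero => intro _; simp only [add_zero, Nat.cast_zero, zero_add, one_mul]; omega
    | succ i ih =>
      intro h
      have h1 := ih fun j hj => h j (by omega)
      have h2 := h i (by omega)
      have h3 : |v (n + i + 1)| ≤ |v (n + i + 1) - v (n + i)| + |v (n + i)| := by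
        simpa using abs_add_le (v (n + i + 1) - v (n + i)) (v (n + i))
      rw [← add_assoc]
      push_cast
      linarith
  have hex : ∃ i, i < k ∧ (4 * J < c (v (n + i)) ∨ A < |v (n + i + 1) - v (n + i)|) := by
    by_contra hno
    push Not at hno
    have h1 := hpos k fun j hj => (hno j hj).2
    have h2 : |v n| ^ 50 < |v (n + k)| := by exact_mod_cast hn1
    have h3 : (2 : ℤ) ^ (50 * J) ≤ |v n| ^ 50 := by
      rw [mul_comm, pow_mul]; exact pow_le_pow_left₀ (by positivity) hJ1' 50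
    omega
  set i0 := Nat.find hex with hi0
  obtain ⟨hi0k, hi0s⟩ := Nat.find_spec hex
  rw [← hi0] at hi0k hi0s
  have hmin : ∀ j < i0, c (v (n + j)) ≤ 4 * J ∧ |v (n + j + 1) - v (n + j)| ≤ A := by
    intro j hj
    have := Nat.find_min hex hj
    push Not at this
    exact this (by omega)
  have hR : ∀ i ≤ i0, |v (n + i)| ≤ (k + 1) * A := by
    intro i hi
    refine (hpos i fun j hj => (hmin j (by omega)).2).trans ?_
    have : (i : ℤ) + 1 ≤ k + 1 := by exact_mod_cast (show i + 1 ≤ k + 1 by omega)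
    exact mul_le_mul_of_nonneg_right this hA0.le
  have hLb : ∀ i ≤ i0, c (v (n + i)) ≤ 4 * J →
      L s(v (n + i), v (n + i + 1)) ≤ HH k J / 2 ^ c (v (n + i)) := by
    intro i hi hci
    unfold HH
    have hdiv : J < k * (J / k + 1) := Nat.lt_mul_div_succ J (by omega)
    by_cases hm : J / k + 1 ≤ c (v (n + i))
    · have hm0 : m0 ≤ J / k + 1 := by
        have := (Nat.le_div_iff_mul_le (show 0 < k by omega)).2 hJm
        omega
      have hx : |v (n + i)| ≤ 2 ^ (50 * k * c (v (n + i))) := by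
        refine (hR i hi).trans (hA2.trans (pow_le_pow_right₀ (by norm_num) ?_))
        nlinarith
      obtain ⟨y, hy0, hyi, hya, hys, hyl⟩ := greedy hL (by omega) hG (hm0.trans hm) hx (hc _)
      refine (step_le hL hv (n + i) y hy0 hyi hya hys).trans (hyl.trans ?_)
      refine div_le_div_of_nonneg_right ?_ (by positivity)
      have h1 : (c (v (n + i)) : ℝ) + 1 ≤ 4 * J + 1 := by
        exact_mod_cast (show c (v (n + i)) + 1 ≤ 4 * J + 1 by omega)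
      have h2 : (1 : ℝ) ≤ 2 ^ (J / k + 1) := one_le_pow₀ (by norm_num)
      push_cast
      calc 256 * (50 * (k : ℝ) + 2) * (c (v (n + i)) + 1)
          ≤ 256 * (50 * (k : ℝ) + 2) * (4 * J + 1) := by gcongr
        _ ≤ _ := le_mul_of_one_le_right (by positivity) h2
    · refine (hn3 i).trans ?_
      rw [le_div_iff₀ (by positivity), one_mul]
      have h1 : (2 : ℝ) ^ c (v (n + i)) ≤ 2 ^ (J / k + 1) :=
        pow_le_pow_right₀ (by norm_num) (by omega)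
      refine h1.trans (le_mul_of_one_le_left (by positivity) ?_)
      have h2 : (0 : ℝ) ≤ k := by positivity
      have h3 : (0 : ℝ) ≤ J := by positivity
      nlinarith [mul_nonneg h2 h3]
  have hcaseA : ∀ n' ≤ i0 + 1, (∀ i < n', c (v (n + i)) ≤ 4 * J) → ¬ 4 * J < c (v (n + n')) := by
    intro n' hn' h1 h2
    refine hAJ n' (by omega) (fun i => (v (n + i), c (v (n + i)))) ⟨?_, hJ2', ?_, h2, ?_, ?_, ?_⟩
    · intro a a' h
      have := hv.1.2.1 h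
      exact Fin.ext (by omega)
    · exact fun i => h1 i i.2
    · exact fun i => hc _
    · exact fun i => adj_bound hE (hc _) (hc _) (hv.1.2.2.1 (n + i))
    · exact fun i => hLb i (by have := i.2; omega) (h1 i i.2)
  have h1 : c (v (n + i0)) ≤ 4 * J :=
    not_lt.1 (hcaseA i0 (by omega) fun i hi => (hmin i hi).1)
  have h2 : c (v (n + (i0 + 1))) ≤ 4 * J := by
    refine not_lt.1 (hcaseA (i0 + 1) le_rfl fun i hi => ?_)
    rcases Nat.lt_succ_iff_lt_or_eq.1 hi with h | rfl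
    · exact (hmin i h).1
    · exact h1
  have h3 : A < |v (n + i0 + 1) - v (n + i0)| := hi0s.resolve_left (not_lt.2 h1)
  refine hBJ ⟨v (n + i0), v (n + i0 + 1), hR i0 le_rfl, h3, ?_⟩
  refine (adj_bound hE (hc _) (hc _) (hv.1.2.2.1 (n + i0))).trans ?_
  refine div_le_div_of_nonneg_right (pow_le_pow_right₀ (by norm_num) ?_) (by positivity)
  rw [← add_assoc] at h2
  omega

end Pool.Agent.H120Z.SFP
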