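import Pool.Agent.H120Z.SFP.Prob

/-! First-moment bounds and the main theorem. -/

set_option linter.unusedSectionVars false

namespace Pool.Agent.H120Z.SFP

open Filter Topology MeasureTheory ProbabilityTheory
open scoped ENNReal

variable {Ω : Type} [MeasurableSpace Ω] {P : Measure Ω} [IsProbabilityMeasure P]
  {W : ℤ → Ω → ℝ} {E L : Sym2 ℤ → Ω → ℝ}

namespace Model

lemma prob_path (M : Model P W E L) (k J n : ℕ) (p : Fin (n + 1) → ℤ × ℕ) :
    P {ω | EvA (fun z => W z ω) (fun e => E e ω) (fun e => L e ω) k J n p} ≤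
      (if |(p 0).1| ≤ (2 ^ (J + 1) : ℕ) then (8⁻¹ : ℝ≥0∞) ^ (p 0).2 else 0) *
        (∏ i : Fin n, gg (4 * J) (ENNReal.ofReal (HH k J)) (p i.castSucc) (p i.succ)) *
        (2⁻¹) ^ (4 * J - (p (Fin.last n)).2) := by
  by_cases h : Function.Injective (fun i => (p i).1) ∧ |(p 0).1| < 2 ^ (J + 1) ∧
    (∀ i : Fin n, (p i.castSucc).2 ≤ 4 * J) ∧ 4 * J < (p (Fin.last n)).2
  swap
  · have : {ω | EvA (fun z => W z ω) (fun e => E e ω) (fun e => L e ω) k J n p} = ∅ := by
      ext ω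
      simp only [Set.mem_ofPred_eq, Set.mem_empty_iff_false, iff_false]
      exact fun h' => h ⟨h'.1, h'.2.1, h'.2.2.1, h'.2.2.2.1⟩
    rw [this]; simp
  obtain ⟨h1, h2, h3, h4⟩ := h
  have he : Function.Injective fun i : Fin n => s((p i.castSucc).1, (p i.succ).1) := by
    intro a b hab
    rcases Sym2.eq_iff.1 hab with h | h
    · exact Fin.castSucc_injective _ (h1 h.1)
    · have e1 := congrArg Fin.val (h1 h.1)
      have e2 := congrArg Fin.val (h1 h.2)
      simp only [Fin.val_castSucc, Fin.val_succ] at e1 e2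
      omega
  have h5 := M.triple (fun i => (p i).1) h1 _ he (fun i => cl (p i).2)
    (fun i => Set.Iic (64 ^ ((p i.castSucc).2 + (p i.succ).2 + 2) /
      |((p i.succ).1 : ℝ) - (p i.castSucc).1| ^ 3))
    (fun i => Set.Iic (HH k J / 2 ^ (p i.castSucc).2)) (fun _ => mcl _)
    (fun _ => measurableSet_Iic) (fun _ => measurableSet_Iic)
  refine le_trans (measure_mono ?_) (h5.le.trans ?_)
  · exact fun ω h => ⟨h.2.2.2.2.1, h.2.2.2.2.2.1, h.2.2.2.2.2.2⟩
  rw [if_pos (by push_cast; exact h2.le), Nat.sub_eq_zero_of_le h4.le, pow_zero, mul_one,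
    Fin.prod_univ_succ, mul_assoc, ← Finset.prod_mul_distrib, ← Finset.prod_mul_distrib]
  gcongr with i
  · exact M.pW_le _ _
  unfold gg
  rw [if_pos (h3 i), mul_comm (phi _ _), mul_assoc]
  gcongr
  · exact M.pW_le _ _
  · refine (M.pE_le _ _).trans (le_of_eq ?_)
    unfold phi
    push_cast
    rw [← pow_mul, mul_comm _ 3, pow_mul]; norm_num
  · refine (M.pL_le _ _).trans (le_of_eq ?_)
    rw [div_eq_mul_inv, ENNReal.ofReal_mul (by unfold HH; positivity), ← inv_pow,
      ENNReal.ofReal_pow (by norm_num), ENNReal.ofReal_inv_of_pos (by norm_num)]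
    norm_num

lemma prob_A (M : Model P W E L) (k J : ℕ) :
    P {ω | ∃ n ≤ k, ∃ p, EvA (fun z => W z ω) (fun e => E e ω) (fun e => L e ω) k J n p} ≤
      ENNReal.ofReal ((k + 1) * ((64 * HH k J * (4 * J + 2)) ^ k *
        ((2 * 2 ^ (J + 1) + 1) * (2 * (2⁻¹) ^ (4 * J))))) := by
  have hH : 1 ≤ HH k J := by
    unfold HH
    have h1 : (1 : ℝ) ≤ 2 ^ (J / k + 1) := one_le_pow₀ (by norm_num)
    have h2 : (0 : ℝ) ≤ k := by positivity
    have h3 : (0 : ℝ) ≤ J := by positivity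
    refine one_le_mul_of_one_le_of_one_le ?_ h1
    nlinarith [mul_nonneg h2 h3]
  set c : ℝ≥0∞ := 64 * ENNReal.ofReal (HH k J) * (((4 * J : ℕ) : ℝ≥0∞) + 2) with hc
  have hc1 : 1 ≤ c := by
    refine one_le_mul_of_one_le_of_one_le (one_le_mul_of_one_le_of_one_le (by norm_num)
      (ENNReal.one_le_ofReal.2 hH)) (le_add_left (by norm_num))
  calc _ ≤ P (⋃ n ∈ Finset.range (k + 1), ⋃ p : Fin (n + 1) → ℤ × ℕ,
          {ω | EvA (fun z => W z ω) (fun e => E e ω) (fun e => L e ω) k J n p}) := by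
        refine measure_mono ?_
        rintro ω ⟨n, hn, p, h⟩
        exact Set.mem_biUnion (Finset.mem_range.2 (Nat.lt_succ_of_le hn)) (Set.mem_iUnion.2 ⟨p, h⟩)
    _ ≤ ∑ _n ∈ Finset.range (k + 1), c ^ k *
          ((2 * ((2 ^ (J + 1) : ℕ) : ℝ≥0∞) + 1) * (2 * (2⁻¹) ^ (4 * J))) := by
        refine (measure_biUnion_finset_le _ _).trans (Finset.sum_le_sum fun n hn => ?_)
        refine (measure_iUnion_le _).trans
          ((ENNReal.tsum_le_tsum fun p => M.prob_path k J n p).trans ?_)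
        refine (transfer (gg (4 * J) (ENNReal.ofReal (HH k J)))
          (fun s => (2⁻¹ : ℝ≥0∞) ^ (4 * J - s.2)) c (lyap _ _) n
          (fun s => if |s.1| ≤ (2 ^ (J + 1) : ℕ) then (8⁻¹ : ℝ≥0∞) ^ s.2 else 0)).trans ?_
        gcongr
        · exact Nat.lt_succ_iff.1 (Finset.mem_range.1 hn)
        · exact sum_start _ _
    _ = _ := by
        rw [Finset.sum_const, Finset.card_range, nsmul_eq_mul, hc]
        have hH0 : 0 ≤ HH k J := by linarith
        rw [ENNReal.ofReal_mul (by positivity), ENNReal.ofReal_mul (by positivity),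
          ENNReal.ofReal_mul (by positivity), ENNReal.ofReal_mul (by positivity),
          ENNReal.ofReal_pow (by positivity), ENNReal.ofReal_pow (by positivity),
          ENNReal.ofReal_mul (by positivity), ENNReal.ofReal_mul (by positivity),
          ENNReal.ofReal_add (by positivity) (by positivity),
          ENNReal.ofReal_add (by positivity) (by positivity),
          ENNReal.ofReal_add (by positivity) (by positivity),
          ENNReal.ofReal_mul (by positivity), ENNReal.ofReal_mul (by positivity),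
          ENNReal.ofReal_pow (by positivity), ENNReal.ofReal_inv_of_pos (by norm_num)]
        simp

lemma boundA_summable {k : ℕ} (hk : 1 ≤ k) : Summable fun J : ℕ =>
    ((k : ℝ) + 1) * ((64 * HH k J * (4 * J + 2)) ^ k *
        ((2 * 2 ^ (J + 1) + 1) * (2 * (2⁻¹) ^ (4 * J)))) := by
  have h1 := (summable_nat_add_iff 1).2
    (summable_pow_mul_geometric_of_norm_lt_one (R := ℝ) (2 * k) (r := 4⁻¹) (by norm_num))
  refine Summable.of_nonneg_of_le (fun J => by unfold HH; positivity) (fun J => ?_)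
    (h1.mul_left (((k : ℝ) + 1) * (64 * 256 * (50 * k + 2) * 16 * 2) ^ k * 40))
  have h2 : ((2 : ℝ) ^ (J / k)) ^ k ≤ 2 ^ J := by
    rw [← pow_mul]
    exact pow_le_pow_right₀ (by norm_num) (Nat.div_mul_le_self J k)
  have h3 : 64 * HH k J * (4 * J + 2) ≤
      (64 * 256 * (50 * k + 2) * 16 * 2) * ((J : ℝ) + 1) ^ 2 * 2 ^ (J / k) := by
    unfold HH
    rw [pow_succ]
    have h4 : (4 * (J : ℝ) + 1) * (4 * J + 2) ≤ 16 * ((J : ℝ) + 1) ^ 2 := by
      have : (0 : ℝ) ≤ J := by positivity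
      nlinarith
    calc _ = (64 * 256 * (50 * k + 2) * 2) * ((4 * (J : ℝ) + 1) * (4 * J + 2)) * 2 ^ (J / k) := by
          ring
      _ ≤ (64 * 256 * (50 * k + 2) * 2) * (16 * ((J : ℝ) + 1) ^ 2) * 2 ^ (J / k) := by gcongr
      _ = _ := by ring
  have h5 : (64 * HH k J * (4 * J + 2)) ^ k ≤
      (64 * 256 * (50 * k + 2) * 16 * 2) ^ k * ((J : ℝ) + 1) ^ (2 * k) * 2 ^ J := by
    refine (pow_le_pow_left₀ (by unfold HH; positivity) h3 k).trans ?_
    rw [mul_pow, mul_pow, ← pow_mul]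
    gcongr
  have h6 : (2 * (2 : ℝ) ^ (J + 1) + 1) ≤ 5 * 2 ^ J := by
    have : (1 : ℝ) ≤ 2 ^ J := one_le_pow₀ (by norm_num)
    rw [pow_succ]; linarith
  have h7 : (2 : ℝ) ^ J * 2 ^ J * (2⁻¹) ^ (4 * J) = 4 * (4⁻¹) ^ (J + 1) := by
    rw [pow_mul, ← mul_pow, ← mul_pow, pow_succ]
    norm_num
    ring
  calc _ ≤ ((k : ℝ) + 1) * (((64 * 256 * (50 * k + 2) * 16 * 2) ^ k * ((J : ℝ) + 1) ^ (2 * k) *
          2 ^ J) * ((5 * 2 ^ J) * (2 * (2⁻¹) ^ (4 * J)))) := by gcongr
    _ = ((k : ℝ) + 1) * (64 * 256 * (50 * k + 2) * 16 * 2) ^ k * 10 * ((J : ℝ) + 1) ^ (2 * k) *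
          ((2 : ℝ) ^ J * 2 ^ J * (2⁻¹) ^ (4 * J)) := by ring
    _ = _ := by rw [h7]; push_cast; ring

lemma ae_A (M : Model P W E L) {k : ℕ} (hk : 1 ≤ k) : ∀ᵐ ω ∂P, ∀ᶠ J in atTop, ∀ n ≤ k, ∀ p,
    ¬ EvA (fun z => W z ω) (fun e => E e ω) (fun e => L e ω) k J n p := by
  filter_upwards [bc (boundA_summable hk) (fun J => by unfold HH; positivity) (M.prob_A k)]
    with ω h
  filter_upwards [h] with J hJ n hn p hp
  exact hJ ⟨n, hn, p, hp⟩

lemma prob_B (M : Model P W E L) (k J : ℕ) :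
    P {ω | EvB (fun e => E e ω) k J} ≤ ENNReal.ofReal ((k + 1) * (12 * 4096) * (2⁻¹) ^ J) := by
  set A : ℕ := 2 ^ (49 * J) with hA
  have hA1 : 1 ≤ A := Nat.one_le_two_pow
  have hA0 : (0 : ℝ) < A := by exact_mod_cast hA1
  set T : ℝ := 64 ^ (8 * J + 2) with hT
  have hT0 : 0 ≤ T := by positivity
  let s : ℤ × ℤ → Set Ω := fun z => {ω | |z.1| ≤ ((k + 1) * A : ℕ) ∧ (A : ℤ) < |z.2 - z.1| ∧
    E s(z.1, z.2) ω ≤ T / |(z.2 : ℝ) - z.1| ^ 3}
  have h1 : ∀ z : ℤ × ℤ, P (s z) ≤ (if |z.1| ≤ ((k + 1) * A : ℕ) then (1 : ℝ≥0∞) else 0) *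
      (ENNReal.ofReal (T / A ^ 3) * phi A (z.2 - z.1)) := by
    rintro ⟨x, y⟩
    by_cases hx : |x| ≤ ((k + 1) * A : ℕ)
    swap
    · have : s (x, y) = ∅ := Set.eq_empty_of_forall_notMem fun ω h => hx h.1
      rw [this]; simp
    by_cases hy : (A : ℤ) < |y - x|
    swap
    · have : s (x, y) = ∅ := Set.eq_empty_of_forall_notMem fun ω h => hy h.2.1
      rw [this]; simp
    rw [if_pos hx, one_mul]
    have hy' : (A : ℝ) < |(y : ℝ) - x| := by exact_mod_cast hy
    refine (measure_mono (t := E s(x, y) ⁻¹' Set.Iic (T / |(y : ℝ) - x| ^ 3))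
      fun ω h => h.2.2).trans ((M.pE_le _ _).trans ((min_le_right _ _).trans (le_of_eq ?_)))
    unfold phi
    push_cast
    rw [min_eq_right, ← ENNReal.ofReal_mul (by positivity)]
    · congr 1
      field_simp
    · rw [ENNReal.ofReal_le_one, div_le_one (by have := hA0.trans hy'; positivity)]
      exact pow_le_pow_left₀ hA0.le hy'.le 3
  calc _ ≤ P (⋃ z, s z) := by
        refine measure_mono ?_
        rintro ω ⟨x, y, hx, hy, h⟩
        exact Set.mem_iUnion.2 ⟨(x, y), by push_cast [hA]; exact hx, by push_cast [hA]; exact hy, h⟩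
    _ ≤ ∑' z : ℤ × ℤ, (if |z.1| ≤ ((k + 1) * A : ℕ) then (1 : ℝ≥0∞) else 0) *
          (ENNReal.ofReal (T / A ^ 3) * phi A (z.2 - z.1)) :=
        (measure_iUnion_le _).trans (ENNReal.tsum_le_tsum h1)
    _ ≤ ∑' x : ℤ, (if |x| ≤ ((k + 1) * A : ℕ) then (1 : ℝ≥0∞) else 0) *
          (ENNReal.ofReal (T / A ^ 3) * (4 * A)) := by
        rw [ENNReal.tsum_prod']
        refine ENNReal.tsum_le_tsum fun x => ?_
        by_cases hx : |x| ≤ ((k + 1) * A : ℕ)
        · simp only [hx, if_true, one_mul]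
          rw [ENNReal.tsum_mul_left]
          gcongr
          exact sum_phi_shift A hA1 x
        · simp only [hx, if_false, zero_mul, tsum_zero, le_refl]
    _ = ENNReal.ofReal ((2 * ((k + 1) * A) + 1) * (T / A ^ 3 * (4 * A))) := by
        rw [ENNReal.tsum_mul_right, sum_ind, ENNReal.ofReal_mul (by positivity),
          ENNReal.ofReal_mul (by positivity), ENNReal.ofReal_mul (by positivity),
          ENNReal.ofReal_add (by positivity) (by positivity), ENNReal.ofReal_mul (by positivity),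
          ENNReal.ofReal_mul (by positivity), ENNReal.ofReal_add (by positivity) (by positivity)]
        simp
    _ ≤ _ := by
        refine ENNReal.ofReal_le_ofReal ?_
        have h2 : (1 : ℝ) ≤ (k + 1) * A := by exact_mod_cast Nat.mul_pos (Nat.succ_pos k) hA1
        have h3 : T / A = 4096 * (2⁻¹) ^ J := by
          rw [hT, hA, div_eq_iff (by positivity)]
          push_cast
          rw [pow_add, pow_mul, pow_mul, mul_assoc, ← mul_pow]
          norm_num
          ring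
        calc (2 * ((k + 1) * A) + 1) * (T / A ^ 3 * (4 * A))
            ≤ (3 * ((k + 1) * A)) * (T / A ^ 3 * (4 * A)) := by gcongr; linarith
          _ = (k + 1) * 12 * (T / A) := by field_simp; ring
          _ = _ := by rw [h3]; ring

lemma ae_B (M : Model P W E L) (k : ℕ) : ∀ᵐ ω ∂P, ∀ᶠ J in atTop, ¬ EvB (fun e => E e ω) k J :=
  bc ((summable_geometric_of_lt_one (r := (2⁻¹ : ℝ)) (by norm_num) (by norm_num)).mul_left _)
    (fun J => by positivity) (M.prob_B k)

theorem main (M : Model P W E L) : ∀ᵐ ω ∂P,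
    (∃ v, IsShortest (Adj 3 1 (fun x => W x ω) (fun e => E e ω)) (fun e => L e ω) v) ∧
    ∀ v, IsShortest (Adj 3 1 (fun x => W x ω) (fun e => E e ω)) (fun e => L e ω) v →
      ∀ b : ℝ, 1 < b → ∃ᶠ n in atTop, |(v n : ℝ)| < Real.exp (b ^ n) := by
  filter_upwards [M.aeW, M.aeE, M.aeL, M.ae_locfin, ae_all_iff.2 M.ae_good,
    ae_all_iff.2 fun k => M.ae_A (Nat.le_add_left 1 k), ae_all_iff.2 M.ae_B]
    with ω hW hE hL hF hG hA hB
  constructor
  · obtain ⟨m0, hm0⟩ := hG 4
    exact exists_shortest hL hF (exists_exploding hL le_rfl hm0)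
  · intro v hv b hb
    obtain ⟨k, hk⟩ := ((tendsto_pow_atTop_atTop_of_one_lt hb).eventually_gt_atTop 50).exists
    have hk' : 50 < b ^ (k + 1) := hk.trans_le (pow_le_pow_right₀ hb.le (Nat.le_succ k))
    obtain ⟨m0, hm0⟩ := hG (50 * (k + 1))
    exact det_main hW hE hL (Nat.le_add_left 1 k) hm0 (hA k) (hB (k + 1)) hv hb hk'

end Model

lemma IL_finite : ∫⁻ y in Set.Ioi (0 : ℝ),
    ENNReal.ofReal (genInv (expMeasure 1) (Real.exp (-Real.exp y))) < ⊤ := by
  have h1 : IntegrableOn (fun y : ℝ => 2 * Real.exp (-y)) (Set.Ioi 0) :=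
    (integrableOn_exp_neg_Ioi 0).const_mul 2
  refine lt_of_le_of_lt ?_ h1.lintegral_lt_top
  refine setLIntegral_mono' measurableSet_Ioi fun y hy => ENNReal.ofReal_le_ofReal ?_
  have hy0 : 0 < y := hy
  have := isProbabilityMeasure_expMeasure (r := 1) one_pos
  have hc : ∀ t, (expMeasure 1).real (Set.Iic t) = if 0 ≤ t then 1 - Real.exp (-t) else 0 := by
    intro t; rw [← cdf_eq_real, cdf_expMeasure_eq one_pos, one_mul]
  set s := Real.exp (-Real.exp y) with hs
  have hs0 : 0 < s := Real.exp_pos _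
  have h2 : y + 1 ≤ Real.exp y := Real.add_one_le_exp y
  have hs1 : s ≤ Real.exp (-1) := Real.exp_le_exp.2 (by linarith)
  have hs2 : s ≤ Real.exp (-y) := Real.exp_le_exp.2 (by linarith)
  have h3 := Real.exp_neg_one_lt_d9
  refine le_trans (csInf_le ⟨0, fun t ht => ?_⟩ (show 2 * s ∈ _ from ?_)) (by linarith)
  · by_contra h
    have h4 : s ≤ (expMeasure 1).real (Set.Iic t) := ht
    rw [hc, if_neg h] at h4
    linarith
  · change s ≤ (expMeasure 1).real (Set.Iic (2 * s))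
    rw [hc, if_pos (by linarith)]
    have := Model.exp_neg_le (t := 2 * s) (by linarith) (by linarith)
    linarith

end Pool.Agent.H120Z.SFP
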