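import Pool.Agent.H120Z.SFP.Defs

/-! Deterministic lemmas on exploding paths: splicing and existence of a minimiser. -/

namespace Pool.Agent.H120Z.SFP

open Filter Topology

variable {adj : ℤ → ℤ → Prop} {L : Sym2 ℤ → ℝ}

lemma splice (hL : ∀ e, 0 ≤ L e) (v : ℕ → ℤ) (j : ℕ) (h0 : v 0 = 0)
    (hinj : ∀ a ≤ j, ∀ b ≤ j, v a = v b → a = b) (hadj : ∀ i < j, adj (v i) (v (i + 1)))
    (y : ℕ → ℤ) (hy0 : y 0 = v j) (hyinj : Function.Injective y)
    (hyadj : ∀ n, adj (y n) (y (n + 1))) (hys : Summable fun n => L s(y n, y (n + 1))) :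
    ∃ l ≤ j, ∃ u, IsExploding adj L u ∧
      len L u ≤ ∑ i ∈ Finset.range l, L s(v i, v (i + 1)) + ∑' n, L s(y n, y (n + 1)) := by
  classical
  have hfin : {i | ∃ l ≤ j, y i = v l}.Finite := by
    have : {i | ∃ l ≤ j, y i = v l} = y ⁻¹' (v '' Set.Iic j) := by
      ext i; simp [eq_comm]
    rw [this]
    exact ((Set.finite_Iic j).image v).preimage hyinj.injOn
  have hne : {i | ∃ l ≤ j, y i = v l}.Nonempty := ⟨0, j, le_rfl, hy0⟩
  obtain ⟨i0, ⟨l, hl, hil⟩, hmax⟩ := hfin.exists_maximal hne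
  have hmax' : ∀ i, i0 < i → ∀ a ≤ j, y i ≠ v a := by
    intro i hi a ha h
    have := hmax (y := i) ⟨a, ha, h⟩ hi.le
    omega
  let u : ℕ → ℤ := fun n => if n ≤ l then v n else y (i0 + (n - l))
  have hu1 : ∀ n, n ≤ l → u n = v n := fun n hn => if_pos hn
  have hu2 : ∀ n, u (n + l) = y (i0 + n) := by
    intro n
    rcases Nat.eq_zero_or_pos n with rfl | hn
    · rw [zero_add, hu1 l le_rfl, add_zero, hil]
    · simp only [u]
      rw [if_neg (by omega), Nat.add_sub_cancel]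
  have hs2 : Summable fun n => L s(y (i0 + n), y (i0 + n + 1)) := by
    have := (summable_nat_add_iff i0).2 hys
    simpa only [add_comm _ i0] using this
  have hs3 : Summable fun n => L s(u (n + l), u (n + l + 1)) := by
    refine hs2.congr fun n => ?_
    rw [hu2, show n + l + 1 = (n + 1) + l by ring, hu2, add_assoc]
  have hsu : Summable fun n => L s(u n, u (n + 1)) := (summable_nat_add_iff l).1 hs3
  refine ⟨l, hl, u, ⟨by rw [hu1 0 (Nat.zero_le _), h0], ?_, ?_, hsu⟩, ?_⟩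
  · intro a b hab
    by_cases ha : a ≤ l <;> by_cases hb : b ≤ l
    · rw [hu1 a ha, hu1 b hb] at hab
      exact hinj a (ha.trans hl) b (hb.trans hl) hab
    · obtain ⟨c, rfl⟩ : ∃ c, b = c + l := ⟨b - l, by omega⟩
      rw [hu1 a ha, hu2] at hab
      exact absurd hab.symm (hmax' _ (by omega) a (ha.trans hl))
    · obtain ⟨c, rfl⟩ : ∃ c, a = c + l := ⟨a - l, by omega⟩
      rw [hu1 b hb, hu2] at hab
      exact absurd hab (hmax' _ (by omega) b (hb.trans hl))
    · obtain ⟨c, rfl⟩ : ∃ c, a = c + l := ⟨a - l, by omega⟩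
      obtain ⟨d, rfl⟩ : ∃ d, b = d + l := ⟨b - l, by omega⟩
      rw [hu2, hu2] at hab
      have := hyinj hab
      omega
  · intro n
    by_cases hn : n < l
    · rw [hu1 n hn.le, hu1 (n + 1) hn]
      exact hadj n (by omega)
    · obtain ⟨c, rfl⟩ : ∃ c, n = c + l := ⟨n - l, by omega⟩
      rw [hu2, show c + l + 1 = (c + 1) + l by ring, hu2, ← add_assoc]
      exact hyadj _
  · unfold len
    rw [← hsu.sum_add_tsum_nat_add l]
    refine add_le_add (le_of_eq ?_) ?_
    · refine Finset.sum_congr rfl fun i hi => ?_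
      have := Finset.mem_range.1 hi
      rw [hu1 i this.le, hu1 (i + 1) this]
    · rw [← hys.sum_add_tsum_nat_add i0]
      have h1 : ∑' n, L s(u (n + l), u (n + l + 1)) = ∑' n, L s(y (n + i0), y (n + i0 + 1)) := by
        refine tsum_congr fun n => ?_
        rw [hu2, show n + l + 1 = (n + 1) + l by ring, hu2, add_comm n i0, add_assoc]
      rw [h1]
      exact le_add_of_nonneg_left (Finset.sum_nonneg fun _ _ => hL _)

lemma step_le (hL : ∀ e, 0 ≤ L e) {v : ℕ → ℤ} (hv : IsShortest adj L v) (j : ℕ)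
    (y : ℕ → ℤ) (hy0 : y 0 = v j) (hyinj : Function.Injective y)
    (hyadj : ∀ n, adj (y n) (y (n + 1))) (hys : Summable fun n => L s(y n, y (n + 1))) :
    L s(v j, v (j + 1)) ≤ ∑' n, L s(y n, y (n + 1)) := by
  obtain ⟨⟨h0, hinj, hadj, hs⟩, hmin⟩ := hv
  obtain ⟨l, hl, u, hu, hlen⟩ := splice hL v j h0 (fun a _ b _ h => hinj h) (fun i _ => hadj i)
    y hy0 hyinj hyadj hys
  have h1 := (hmin u hu).trans hlen
  unfold len at h1
  rw [← hs.sum_add_tsum_nat_add l] at h1
  have h2 : L s(v (j - l + l), v (j - l + l + 1)) ≤ ∑' n, L s(v (n + l), v (n + l + 1)) :=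
    ((summable_nat_add_iff l).2 hs).le_tsum (j - l) fun _ _ => hL _
  rw [Nat.sub_add_cancel hl] at h2
  linarith

lemma exists_shortest (hL : ∀ e, 0 ≤ L e) (hF : ∀ x, {y | adj x y}.Finite)
    (hex : ∃ u, IsExploding adj L u) : ∃ v, IsShortest adj L v := by
  classical
  set S : Set ℝ := len L '' {u | IsExploding adj L u} with hS
  have hSne : S.Nonempty := hex.imp' (fun u => len L u) fun u hu => ⟨u, hu, rfl⟩
  have hSb : BddBelow S := ⟨0, by rintro _ ⟨u, -, rfl⟩; exact tsum_nonneg fun _ => hL _⟩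
  obtain ⟨a, -, ha, haS⟩ := exists_seq_tendsto_sInf hSne hSb
  choose p hp hpa using haS
  let R : ℕ → Set ℤ := fun n => Nat.rec {0} (fun _ s => ⋃ x ∈ s, {y | adj x y}) n
  have hRfin : ∀ n, (R n).Finite := by
    intro n
    induction n with
    | zero => exact Set.finite_singleton 0
    | succ n ih => exact ih.biUnion fun x _ => hF x
  have hR : ∀ u, IsExploding adj L u → u ∈ Set.pi Set.univ R := by
    intro u hu n _
    induction n with
    | zero => exact hu.1
    | succ n ih => exact Set.mem_biUnion (ih trivial) (hu.2.2.1 n)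
  have hK : IsCompact (Set.pi Set.univ R) := isCompact_univ_pi fun n => (hRfin n).isCompact
  obtain ⟨v, -, φ, hφ, hlim⟩ := hK.tendsto_subseq fun n => hR _ (hp n)
  have hev : ∀ j, ∀ᶠ n in atTop, p (φ n) j = v j := by
    intro j
    have := tendsto_pi_nhds.1 hlim j
    rw [nhds_discrete, tendsto_pure] at this
    exact this
  have hpart : ∀ N, ∑ i ∈ Finset.range N, L s(v i, v (i + 1)) ≤ sInf S := by
    intro N
    refine ge_of_tendsto (ha.comp hφ.tendsto_atTop) ?_
    have : ∀ᶠ n in atTop, ∀ j ∈ Finset.range (N + 1), p (φ n) j = v j :=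
      (Finset.eventually_all _).2 fun j _ => hev j
    filter_upwards [this] with n hn
    simp only [Function.comp]
    rw [← hpa]
    unfold len
    refine le_trans (le_of_eq ?_) ((hp (φ n)).2.2.2.sum_le_tsum (Finset.range N) fun _ _ => hL _)
    refine Finset.sum_congr rfl fun i hi => ?_
    have := Finset.mem_range.1 hi
    rw [hn i (Finset.mem_range.2 (by omega)), hn (i + 1) (Finset.mem_range.2 (by omega))]
  refine ⟨v, ⟨?_, ?_, ?_, summable_of_sum_range_le (fun _ => hL _) hpart⟩, fun u hu => ?_⟩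
  · obtain ⟨n, hn⟩ := (hev 0).exists
    rw [← hn]; exact (hp _).1
  · intro a b hab
    obtain ⟨n, hn1, hn2⟩ := ((hev a).and (hev b)).exists
    exact (hp (φ n)).2.1 (by rw [hn1, hn2, hab])
  · intro j
    obtain ⟨n, hn1, hn2⟩ := ((hev j).and (hev (j + 1))).exists
    rw [← hn1, ← hn2]; exact (hp (φ n)).2.2.1 j
  · exact (Real.tsum_le_of_sum_range_le (fun _ => hL _) hpart).trans (csInf_le hSb ⟨u, hu, rfl⟩)

lemma windows {v : ℕ → ℤ} {b : ℝ} (hb : 1 < b) {k : ℕ} (hk : 50 < b ^ k)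
    (h : ∀ᶠ n in atTop, Real.exp (b ^ n) ≤ |(v n : ℝ)|) :
    ∃ᶠ n in atTop, |(v n : ℝ)| ^ 50 < |(v (n + k) : ℝ)| := by
  by_contra hc
  rw [not_frequently] at hc
  obtain ⟨n1, hn1⟩ := eventually_atTop.1 (h.and hc)
  have hpos : ∀ n ≥ n1, 0 < |(v n : ℝ)| := fun n hn => (Real.exp_pos _).trans_le (hn1 n hn).1
  have hlow : ∀ n ≥ n1, b ^ n ≤ Real.log |(v n : ℝ)| := fun n hn =>
    (Real.le_log_iff_exp_le (hpos n hn)).2 (hn1 n hn).1
  have hup : ∀ j : ℕ, Real.log |(v (n1 + j * k) : ℝ)| ≤ 50 ^ j * Real.log |(v n1 : ℝ)| := by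
    intro j
    induction j with
    | zero => simp
    | succ j ih =>
      have h1 := not_lt.1 (hn1 (n1 + j * k) (by omega)).2
      have h2 := Real.log_le_log (hpos _ (by omega)) h1
      rw [Real.log_pow] at h2
      rw [show n1 + (j + 1) * k = n1 + j * k + k by ring, pow_succ]
      push_cast at h2
      nlinarith
  have hr : 1 < b ^ k / 50 := by rw [lt_div_iff₀ (by norm_num)]; linarith
  obtain ⟨j, hj⟩ := ((tendsto_pow_atTop_atTop_of_one_lt hr).eventually_gt_atTop
    (Real.log |(v n1 : ℝ)|)).exists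
  have h3 := (hlow (n1 + j * k) (by omega)).trans (hup j)
  have h4 : (1 : ℝ) ≤ b ^ n1 := one_le_pow₀ hb.le
  rw [pow_add, mul_comm j k, pow_mul] at h3
  rw [div_pow, lt_div_iff₀ (by positivity)] at hj
  have h5 : (0 : ℝ) < (b ^ k) ^ j := by positivity
  nlinarith

end Pool.Agent.H120Z.SFP
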