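import Pool.Agent.H120Z.SFP.Sums

/-! The probabilistic estimates. -/

set_option linter.unusedSectionVars false

namespace Pool.Agent.H120Z.SFP

open Filter Topology MeasureTheory ProbabilityTheory
open scoped ENNReal

structure Model {Ω : Type} [MeasurableSpace Ω] (P : Measure Ω) (W : ℤ → Ω → ℝ)
    (E L : Sym2 ℤ → Ω → ℝ) : Prop where
  mW : ∀ x, Measurable (W x)
  mE : ∀ e, Measurable (E e)
  mL : ∀ e, Measurable (L e)
  ind : iIndepFun (β := fun _ => ℝ) (Sum.elim W (Sum.elim E L)) P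
  hW : ∀ x t, 1 ≤ t → P {ω | t < W x ω} = ENNReal.ofReal (t ^ (-(1 / 2 : ℝ)))
  hE : ∀ e, HasLaw (E e) (volume.restrict (Set.Icc (0 : ℝ) 1)) P
  hL : ∀ e, HasLaw (L e) (expMeasure 1) P

variable {Ω : Type} [MeasurableSpace Ω] {P : Measure Ω} [IsProbabilityMeasure P]
  {W : ℤ → Ω → ℝ} {E L : Sym2 ℤ → Ω → ℝ}

lemma bc {s : ℕ → Set Ω} {a : ℕ → ℝ} (ha : Summable a) (ha0 : ∀ n, 0 ≤ a n)
    (h : ∀ n, P (s n) ≤ ENNReal.ofReal (a n)) : ∀ᵐ ω ∂P, ∀ᶠ n in atTop, ω ∉ s n := by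
  refine ae_eventually_notMem (ne_top_of_le_ne_top (b := ENNReal.ofReal (∑' n, a n))
    ENNReal.ofReal_ne_top ?_)
  rw [ENNReal.ofReal_tsum_of_nonneg ha0 ha]
  exact ENNReal.tsum_le_tsum h

lemma mcl (m : ℕ) : MeasurableSet (cl m) := measurableSet_Ioc

namespace Model

lemma triple (M : Model P W E L) {κ₁ κ₂ : Type} [Fintype κ₁] [Fintype κ₂] (x : κ₁ → ℤ)
    (hx : Function.Injective x) (e : κ₂ → Sym2 ℤ) (he : Function.Injective e)
    (s : κ₁ → Set ℝ) (t u : κ₂ → Set ℝ) (hs : ∀ i, MeasurableSet (s i))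
    (ht : ∀ i, MeasurableSet (t i)) (hu : ∀ i, MeasurableSet (u i)) :
    P {ω | (∀ i, W (x i) ω ∈ s i) ∧ (∀ j, E (e j) ω ∈ t j) ∧ (∀ j, L (e j) ω ∈ u j)} =
      (∏ i, P (W (x i) ⁻¹' s i)) * ((∏ j, P (E (e j) ⁻¹' t j)) * ∏ j, P (L (e j) ⁻¹' u j)) := by
  have hg : Function.Injective (Sum.map x (Sum.map e e)) := hx.sumMap (he.sumMap he)
  have h1 := (M.ind.precomp hg).meas_iInter
    (s := fun j => (Sum.elim W (Sum.elim E L) (Sum.map x (Sum.map e e) j)) ⁻¹'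
      (Sum.elim s (Sum.elim t u) j))
    (fun j => ⟨Sum.elim s (Sum.elim t u) j, by rcases j with j | j | j <;> simp [hs, ht, hu], rfl⟩)
  rw [Fintype.prod_sum_type, Fintype.prod_sum_type] at h1
  refine Eq.trans ?_ h1
  congr 1
  ext ω
  simp [Sum.forall]

lemma pow_rpow (m : ℕ) : ((64 : ℝ) ^ m) ^ (-(1 / 2 : ℝ)) = (8⁻¹) ^ m := by
  have : (64 : ℝ) ^ m = (8 ^ m) ^ (2 : ℕ) := by rw [← pow_mul, mul_comm, pow_mul]; norm_num
  rw [this, ← Real.rpow_natCast, ← Real.rpow_mul (by positivity), inv_pow]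
  norm_num
  rw [Real.rpow_neg_one]

lemma pW_tail (M : Model P W E L) (x : ℤ) (m : ℕ) :
    P {ω | (64 : ℝ) ^ m < W x ω} = ENNReal.ofReal ((8⁻¹) ^ m) := by
  rw [M.hW x _ (one_le_pow₀ (by norm_num)), pow_rpow]

lemma pW_le (M : Model P W E L) (x : ℤ) (m : ℕ) : P (W x ⁻¹' cl m) ≤ (8⁻¹) ^ m := by
  refine (measure_mono (t := {ω | (64 : ℝ) ^ m < W x ω}) fun ω h => h.1).trans (le_of_eq ?_)
  rw [M.pW_tail, ENNReal.ofReal_pow (by norm_num), ENNReal.ofReal_inv_of_pos (by norm_num)]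
  norm_num

lemma pW_ge (M : Model P W E L) (x : ℤ) (m : ℕ) :
    ENNReal.ofReal ((8⁻¹) ^ m / 2) ≤ P (W x ⁻¹' cl m) := by
  have h1 : P {ω | (64 : ℝ) ^ m < W x ω} ≤
      P (W x ⁻¹' cl m) + P {ω | (64 : ℝ) ^ (m + 1) < W x ω} := by
    refine (measure_mono ?_).trans (measure_union_le _ _)
    intro ω h
    by_cases h2 : (64 : ℝ) ^ (m + 1) < W x ω
    · exact Or.inr h2
    · exact Or.inl ⟨h, not_lt.1 h2⟩
  rw [M.pW_tail, M.pW_tail] at h1
  have h2 := tsub_le_iff_right.2 h1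
  rw [← ENNReal.ofReal_sub _ (by positivity)] at h2
  refine (ENNReal.ofReal_le_ofReal ?_).trans h2
  rw [pow_succ]
  have : (0 : ℝ) < (8⁻¹) ^ m := by positivity
  linarith

lemma pE (M : Model P W E L) (e : Sym2 ℤ) (t : ℝ) :
    P (E e ⁻¹' Set.Iic t) = volume (Set.Iic t ∩ Set.Icc (0 : ℝ) 1) := by
  have := (M.hE e).measure_eq (p := fun x => x ∈ Set.Iic t) measurableSet_Iic
  refine this.trans ?_
  exact Measure.restrict_apply measurableSet_Iic

lemma pE_le (M : Model P W E L) (e : Sym2 ℤ) (t : ℝ) :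
    P (E e ⁻¹' Set.Iic t) ≤ min 1 (ENNReal.ofReal t) := by
  refine le_min prob_le_one ?_
  rw [M.pE]
  refine (measure_mono (t := Set.Icc 0 t) fun x hx => ⟨hx.2.1, hx.1⟩).trans ?_
  simp

lemma pE_ge (M : Model P W E L) (e : Sym2 ℤ) :
    ENNReal.ofReal (1 / 2) ≤ P (E e ⁻¹' Set.Iic (1 / 2)) := by
  rw [M.pE]
  refine le_trans (le_of_eq ?_) (measure_mono (s := Set.Icc 0 (1 / 2))
    fun x hx => ⟨hx.2, hx.1, hx.2.trans (by norm_num)⟩)
  simp

lemma pL (M : Model P W E L) (e : Sym2 ℤ) (t : ℝ) :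
    P (L e ⁻¹' Set.Iic t) = ENNReal.ofReal (if 0 ≤ t then 1 - Real.exp (-t) else 0) := by
  have := (M.hL e).measure_eq (p := fun x => x ∈ Set.Iic t) measurableSet_Iic
  refine this.trans ?_
  have := isProbabilityMeasure_expMeasure (r := 1) one_pos
  change expMeasure 1 (Set.Iic t) = _
  rw [← ofReal_cdf, cdf_expMeasure_eq one_pos, one_mul]

lemma pL_le (M : Model P W E L) (e : Sym2 ℤ) (t : ℝ) :
    P (L e ⁻¹' Set.Iic t) ≤ ENNReal.ofReal t := by
  rw [M.pL]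
  split_ifs with h
  · exact ENNReal.ofReal_le_ofReal (by linarith [Real.add_one_le_exp (-t)])
  · simp

lemma exp_neg_le {t : ℝ} (h0 : 0 ≤ t) (h1 : t ≤ 1) : t / 2 ≤ 1 - Real.exp (-t) := by
  have h2 := Real.add_one_le_exp t
  have h3 : Real.exp (-t) ≤ 1 / (t + 1) := by
    rw [Real.exp_neg, one_div]; exact inv_anti₀ (by linarith) h2
  have h4 : 1 / (t + 1) ≤ 1 - t / 2 := by
    rw [div_le_iff₀ (by linarith)]; nlinarith
  linarith

lemma pL_ge (M : Model P W E L) (e : Sym2 ℤ) {t : ℝ} (h0 : 0 ≤ t) (h1 : t ≤ 1) :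
    ENNReal.ofReal (t / 2) ≤ P (L e ⁻¹' Set.Iic t) := by
  rw [M.pL, if_pos h0]
  exact ENNReal.ofReal_le_ofReal (exp_neg_le h0 h1)

lemma aeW (M : Model P W E L) : ∀ᵐ ω ∂P, ∀ x, 1 < W x ω := by
  rw [ae_all_iff]
  intro x
  have h1 : P {ω | 1 < W x ω} = 1 := by rw [M.hW x 1 le_rfl]; simp
  exact (mem_ae_iff_prob_eq_one (measurableSet_lt measurable_const (M.mW x))).2 h1

lemma aeE (M : Model P W E L) : ∀ᵐ ω ∂P, ∀ e, E e ω ≤ 1 := by
  rw [ae_all_iff]
  intro e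
  have h1 : P (E e ⁻¹' Set.Iic 1) = 1 := by
    rw [M.pE, Set.inter_eq_right.2 fun x hx => hx.2]; simp
  exact (mem_ae_iff_prob_eq_one (M.mE e measurableSet_Iic)).2 h1

lemma aeL (M : Model P W E L) : ∀ᵐ ω ∂P, ∀ e, 0 ≤ L e ω := by
  rw [ae_all_iff]
  intro e
  have h1 : P (L e ⁻¹' Set.Iic 0) = 0 := by rw [M.pL]; simp
  have h2 : ∀ᵐ ω ∂P, ω ∉ L e ⁻¹' Set.Iic 0 := measure_eq_zero_iff_ae_notMem.1 h1
  filter_upwards [h2] with ω h
  exact (not_le.1 h).le

lemma ae_locfin (M : Model P W E L) :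
    ∀ᵐ ω ∂P, ∀ x, {y | Adj 3 1 (fun z => W z ω) (fun e => E e ω) x y}.Finite := by
  classical
  have key : ∀ x : ℤ, ∀ᵐ ω ∂P, {i : (ℕ × ℕ) × ℤ | ω ∈ {ω | x ≠ i.2 ∧ W x ω ∈ cl i.1.1 ∧
      W i.2 ω ∈ cl i.1.2 ∧ E s(x, i.2) ω ≤ 64 ^ (i.1.1 + i.1.2 + 2) / |(i.2 : ℝ) - x| ^ 3}}.Finite := by
    intro x
    refine ae_finite_setOfPred_mem (ne_top_of_le_ne_top (b := 64 * (2 * 2)) (by norm_num) ?_)
    have h1 : ∀ i : (ℕ × ℕ) × ℤ, P {ω | x ≠ i.2 ∧ W x ω ∈ cl i.1.1 ∧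
        W i.2 ω ∈ cl i.1.2 ∧ E s(x, i.2) ω ≤ 64 ^ (i.1.1 + i.1.2 + 2) / |(i.2 : ℝ) - x| ^ 3} ≤
        (8⁻¹) ^ i.1.1 * (8⁻¹) ^ i.1.2 * phi ((4 ^ (i.1.1 + i.1.2 + 2) : ℕ) : ℝ) (i.2 - x) := by
      rintro ⟨⟨m, m'⟩, y⟩
      by_cases hxy : x = y
      · simp [hxy]
      have h2 := M.triple (κ₁ := Bool) (κ₂ := Unit) (fun b => cond b x y)
        (by rintro (_ | _) (_ | _) h <;> simp_all) (fun _ => s(x, y)) (fun _ _ _ => rfl)
        (fun b => cond b (cl m) (cl m'))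
        (fun _ => Set.Iic (64 ^ (m + m' + 2) / |(y : ℝ) - x| ^ 3)) (fun _ => Set.univ)
        (by rintro (_ | _) <;> exact mcl _) (fun _ => measurableSet_Iic)
        (fun _ => MeasurableSet.univ)
      refine le_trans (measure_mono ?_) (h2.le.trans ?_)
      · rintro ω ⟨-, h3, h4, h5⟩
        exact ⟨by rintro (_ | _) <;> assumption, fun _ => h5, fun _ => trivial⟩
      · simp only [Fintype.prod_bool, cond_true, cond_false, Finset.univ_unique,
          Finset.prod_singleton, Set.preimage_univ, measure_univ, mul_one]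
        gcongr
        · exact M.pW_le _ _
        · exact M.pW_le _ _
        · refine (M.pE_le _ _).trans (le_of_eq ?_)
          unfold phi
          push_cast
          rw [← pow_mul, mul_comm _ 3, pow_mul]; norm_num
    refine (ENNReal.tsum_le_tsum h1).trans ?_
    rw [ENNReal.tsum_prod']
    calc ∑' (a : ℕ × ℕ) (y : ℤ),
          (8⁻¹) ^ a.1 * (8⁻¹) ^ a.2 * phi ((4 ^ (a.1 + a.2 + 2) : ℕ) : ℝ) (y - x)
        ≤ ∑' a : ℕ × ℕ, 64 * ((2⁻¹ : ℝ≥0∞) ^ a.1 * (2⁻¹) ^ a.2) := by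
          refine ENNReal.tsum_le_tsum fun a => ?_
          rw [ENNReal.tsum_mul_left]
          calc _ ≤ (8⁻¹) ^ a.1 * (8⁻¹) ^ a.2 * (4 * ((4 ^ (a.1 + a.2 + 2) : ℕ) : ℝ≥0∞)) := by
                gcongr
                exact sum_phi_shift _ (Nat.one_le_pow _ _ (by norm_num)) x
            _ = 64 * ((2⁻¹ : ℝ≥0∞) ^ a.1 * (2⁻¹) ^ a.2) * (2 ^ a.1 * (2⁻¹) ^ a.1) *
                (2 ^ a.1 * (2⁻¹) ^ a.1) * (2 ^ a.2 * (2⁻¹) ^ a.2) * (2 ^ a.2 * (2⁻¹) ^ a.2) := by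
                rw [four_pow, eight_inv, eight_inv]; ring
            _ = _ := by simp only [two_q, mul_one]
      _ = 64 * (2 * 2) := by
          rw [ENNReal.tsum_mul_left, ENNReal.tsum_prod']
          simp only [ENNReal.tsum_mul_left, ENNReal.tsum_mul_right, sum_q]
  filter_upwards [ae_all_iff.2 key, M.aeW, M.aeE] with ω h hW hE x
  refine ((h x).image Prod.snd).subset fun y hy => ?_
  obtain ⟨m, hm⟩ := exists_cl (hW x)
  obtain ⟨m', hm'⟩ := exists_cl (hW y)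
  refine ⟨((m, m'), y), ⟨?_, hm, hm',
    adj_bound (W := fun z => W z ω) (E := fun e => E e ω) hE hm hm' hy⟩, rfl⟩
  rintro rfl
  rcases hy with h | ⟨h, -⟩ <;> simp at h

lemma prob_not_good (M : Model P W E L) (D m : ℕ) (hu : uu D m ≤ 1) (x : ℤ) :
    P {ω | ¬ Good (fun z => W z ω) (fun e => E e ω) (fun e => L e ω) D m x} ≤
      ENNReal.ofReal (Real.exp (-((D + 2) * (m + 1)))) := by
  classical
  let y : ℕ → ℤ := fun j => x + 1 + j
  have hy : Function.Injective y := fun a b h => by simpa [y] using h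
  have he : Function.Injective fun j => s(x, y j) := by
    intro a b h
    rcases Sym2.eq_iff.1 h with h | h
    · exact hy h.2
    · have := h.1; simp only [y] at this; omega
  let A : ℕ → Set Ω := fun j => {ω | W (y j) ω ∈ cl (m + 1) ∧ E s(x, y j) ω ∈ Set.Iic (1 / 2) ∧
    L s(x, y j) ω ∈ Set.Iic (uu D m)}
  have hAm : ∀ j, MeasurableSet (A j) := fun j =>
    (M.mW _ (mcl _)).inter ((M.mE _ measurableSet_Iic).inter (M.mL _ measurableSet_Iic))
  have hA1 : ∀ j, P (A j) = P (W (y j) ⁻¹' cl (m + 1)) *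
      (P (E s(x, y j) ⁻¹' Set.Iic (1 / 2)) * P (L s(x, y j) ⁻¹' Set.Iic (uu D m))) := by
    intro j
    have := M.triple (κ₁ := Unit) (κ₂ := Unit) (fun _ => y j) (fun _ _ _ => rfl)
      (fun _ => s(x, y j)) (fun _ _ _ => rfl) (fun _ => cl (m + 1)) (fun _ => Set.Iic (1 / 2))
      (fun _ => Set.Iic (uu D m)) (fun _ => mcl _) (fun _ => measurableSet_Iic)
      (fun _ => measurableSet_Iic)
    simpa [A] using this
  have hind : iIndepSet A P := by
    rw [iIndepSet_iff_meas_biInter hAm]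
    intro S
    have := M.triple (κ₁ := S) (κ₂ := S) (fun j => y j) (hy.comp Subtype.val_injective)
      (fun j => s(x, y j)) (he.comp Subtype.val_injective) (fun _ => cl (m + 1))
      (fun _ => Set.Iic (1 / 2)) (fun _ => Set.Iic (uu D m)) (fun _ => mcl _)
      (fun _ => measurableSet_Iic) (fun _ => measurableSet_Iic)
    rw [← Finset.prod_mul_distrib, ← Finset.prod_mul_distrib] at this
    rw [← Finset.prod_coe_sort S]
    simp only [hA1]
    rw [← this]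
    congr 1
    ext ω
    simp only [A, Set.mem_iInter, Set.mem_ofPred_eq, Subtype.forall]
    exact ⟨fun h => ⟨fun a ha => (h a ha).1, fun a ha => (h a ha).2.1, fun a ha => (h a ha).2.2⟩,
      fun h a ha => ⟨h.1 a ha, h.2.1 a ha, h.2.2 a ha⟩⟩
  have hc := (iIndepSet_iff A P).1 hind (Finset.range (16 ^ m)) (f := fun j => (A j)ᶜ)
    fun j _ => (MeasurableSpace.measurableSet_generateFrom (Set.mem_singleton _)).compl
  have hu0 : 0 ≤ uu D m := by unfold uu; positivity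
  set q : ℝ := (8⁻¹) ^ (m + 1) / 2 * (1 / 2 * (uu D m / 2)) with hq
  have hq0 : 0 ≤ q := by positivity
  have hq1 : ∀ j, P (A j)ᶜ ≤ ENNReal.ofReal (Real.exp (-q)) := by
    intro j
    rw [prob_compl_eq_one_sub (hAm j)]
    have h1 : ENNReal.ofReal q ≤ P (A j) := by
      rw [hA1, hq, ENNReal.ofReal_mul (by positivity), ENNReal.ofReal_mul (by positivity)]
      gcongr
      · exact M.pW_ge _ _
      · exact M.pE_ge _
      · exact M.pL_ge _ hu0 hu
    calc 1 - P (A j) ≤ 1 - ENNReal.ofReal q := tsub_le_tsub_left h1 _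
      _ = ENNReal.ofReal (1 - q) := by rw [ENNReal.ofReal_sub _ hq0, ENNReal.ofReal_one]
      _ ≤ _ := ENNReal.ofReal_le_ofReal (by linarith [Real.add_one_le_exp (-q)])
  calc _ ≤ P (⋂ j ∈ Finset.range (16 ^ m), (A j)ᶜ) := by
        refine measure_mono fun ω h => ?_
        simp only [Set.mem_iInter]
        intro j hj hA
        have hj' : ((j : ℤ) + 1) ≤ 16 ^ m := by exact_mod_cast Finset.mem_range.1 hj
        exact h ⟨y j, by simp only [y]; omega, by simp only [y]; omega, hA.1, hA.2.1, hA.2.2⟩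
    _ = ∏ j ∈ Finset.range (16 ^ m), P (A j)ᶜ := hc
    _ ≤ ∏ _j ∈ Finset.range (16 ^ m), ENNReal.ofReal (Real.exp (-q)) :=
        Finset.prod_le_prod' fun j _ => hq1 j
    _ = _ := by
        rw [Finset.prod_const, Finset.card_range, ← ENNReal.ofReal_pow (by positivity),
          ← Real.exp_nat_mul]
        congr 2
        rw [hq]
        unfold uu
        push_cast
        rw [show (16 : ℝ) ^ m = 8 ^ m * 2 ^ m by rw [← mul_pow]; norm_num, inv_pow, pow_succ]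
        field_simp
        ring

lemma ae_good (M : Model P W E L) (D : ℕ) : ∀ᵐ ω ∂P, ∃ m0, ∀ m ≥ m0, ∀ x : ℤ,
    |x| ≤ 2 ^ (D * m) → Good (fun z => W z ω) (fun e => E e ω) (fun e => L e ω) D m x := by
  have h1 : ∀ᵐ ω ∂P, ∀ᶠ m in atTop, ω ∉ {ω | uu D m ≤ 1 ∧ ∃ x : ℤ, |x| ≤ 2 ^ (D * m) ∧
      ¬ Good (fun z => W z ω) (fun e => E e ω) (fun e => L e ω) D m x} := by
    refine bc (a := fun m => 3 * Real.exp (-1) ^ m)
      ((summable_geometric_of_lt_one (by positivity)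
        (Real.exp_lt_one_iff.2 (by norm_num))).mul_left 3) (fun m => by positivity) fun m => ?_
    by_cases hu : uu D m ≤ 1
    swap
    · simp [hu]
    calc _ ≤ P (⋃ x ∈ Finset.Icc (-(2 ^ (D * m) : ℤ)) (2 ^ (D * m)),
          {ω | ¬ Good (fun z => W z ω) (fun e => E e ω) (fun e => L e ω) D m x}) := by
          refine measure_mono ?_
          rintro ω ⟨-, x, hx, h⟩
          exact Set.mem_biUnion (Finset.mem_Icc.2 (abs_le.1 hx)) h
      _ ≤ ∑ x ∈ Finset.Icc (-(2 ^ (D * m) : ℤ)) (2 ^ (D * m)),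
          ENNReal.ofReal (Real.exp (-((D + 2) * (m + 1)))) :=
          (measure_biUnion_finset_le _ _).trans
            (Finset.sum_le_sum fun x _ => M.prob_not_good D m hu x)
      _ ≤ _ := by
          rw [Finset.sum_const, Int.card_Icc, nsmul_eq_mul, ← ENNReal.ofReal_natCast,
            ← ENNReal.ofReal_mul (by positivity)]
          refine ENNReal.ofReal_le_ofReal ?_
          have h2 : ((2 ^ (D * m) : ℤ) + 1 - -(2 ^ (D * m) : ℤ)).toNat = 2 * 2 ^ (D * m) + 1 := by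
            have : (2 ^ (D * m) : ℤ) = ((2 ^ (D * m) : ℕ) : ℤ) := by push_cast; rfl
            rw [this]; omega
          rw [h2]
          push_cast
          have h3 : (2 : ℝ) ^ (D * m) ≤ Real.exp (D * m) := by
            rw [← Nat.cast_mul, ← mul_one ((D * m : ℕ) : ℝ), Real.exp_nat_mul]
            exact pow_le_pow_left₀ (by norm_num) (by linarith [Real.add_one_le_exp 1]) _
          have h4 : (1 : ℝ) ≤ 2 ^ (D * m) := one_le_pow₀ (by norm_num)
          calc (2 * (2 : ℝ) ^ (D * m) + 1) * Real.exp (-((D + 2) * (m + 1)))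
              ≤ (3 * Real.exp (D * m)) * Real.exp (-((D + 2) * (m + 1))) := by
                gcongr; linarith
            _ ≤ 3 * Real.exp (-1) ^ m := by
                rw [mul_assoc, ← Real.exp_add, ← Real.exp_nat_mul]
                gcongr
                have : (0 : ℝ) ≤ D := by positivity
                have : (0 : ℝ) ≤ m := by positivity
                nlinarith
  have h2 : ∀ᶠ m in atTop, uu D m ≤ 1 := by
    have := (uu_sum D 0).1.tendsto_atTop_zero.eventually_le_const (show (0 : ℝ) < 1 by norm_num)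
    simpa using this
  filter_upwards [h1] with ω h
  obtain ⟨m0, hm0⟩ := eventually_atTop.1 (h.and h2)
  refine ⟨m0, fun m hm x hx => ?_⟩
  by_contra hc
  exact (hm0 m hm).1 ⟨(hm0 m hm).2, x, hx, hc⟩

end Model

end Pool.Agent.H120Z.SFP
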