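import Pool.Agent.H120Z.SFP.Det

/-! Summation lemmas. -/

namespace Pool.Agent.H120Z.SFP

open Filter Topology
open scoped ENNReal

lemma transfer {T : Type} (g : T → T → ℝ≥0∞) (f : T → ℝ≥0∞) (c : ℝ≥0∞)
    (h : ∀ x, ∑' y, g x y * f y ≤ c * f x) (n : ℕ) : ∀ a : T → ℝ≥0∞,
    ∑' p : Fin (n + 1) → T, a (p 0) * (∏ i : Fin n, g (p i.castSucc) (p i.succ)) *
      f (p (Fin.last n)) ≤ c ^ n * ∑' x, a x * f x := by
  induction n with
  | zero =>
    intro a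
    rw [pow_zero, one_mul, ← (Equiv.funUnique (Fin 1) T).tsum_eq]
    simp
  | succ n ih =>
    intro a
    rw [← (Fin.consEquiv fun _ : Fin (n + 2) => T).tsum_eq, ENNReal.tsum_prod', ENNReal.tsum_comm]
    have h1 : ∀ (p : Fin (n + 1) → T), ∑' x : T,
        a ((Fin.consEquiv fun _ : Fin (n + 2) => T) (x, p) 0) *
          (∏ i : Fin (n + 1), g ((Fin.consEquiv fun _ : Fin (n + 2) => T) (x, p) i.castSucc)
            ((Fin.consEquiv fun _ : Fin (n + 2) => T) (x, p) i.succ)) *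
          f ((Fin.consEquiv fun _ : Fin (n + 2) => T) (x, p) (Fin.last (n + 1))) =
        (∑' x, a x * g x (p 0)) * (∏ i : Fin n, g (p i.castSucc) (p i.succ)) *
          f (p (Fin.last n)) := by
      intro p
      rw [← ENNReal.tsum_mul_right, ← ENNReal.tsum_mul_right]
      refine tsum_congr fun x => ?_
      rw [Fin.prod_univ_succ]
      simp only [Fin.consEquiv_apply, Fin.cons_zero, Fin.castSucc_zero, Fin.cons_succ,
        ← Fin.succ_last, ← Fin.succ_castSucc]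
      ring
    rw [tsum_congr h1]
    refine (ih fun y => ∑' x, a x * g x y).trans ?_
    rw [pow_succ, mul_assoc]
    gcongr
    calc ∑' y, (∑' x, a x * g x y) * f y = ∑' x, a x * ∑' y, g x y * f y := by
          simp only [← ENNReal.tsum_mul_right, ← ENNReal.tsum_mul_left, mul_assoc]
          exact ENNReal.tsum_comm
      _ ≤ ∑' x, a x * (c * f x) := ENNReal.tsum_le_tsum fun x => by gcongr; exact h x
      _ = c * ∑' x, a x * f x := by
          rw [← ENNReal.tsum_mul_left]; exact tsum_congr fun x => by ring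

noncomputable def phi (A : ℝ) (z : ℤ) : ℝ≥0∞ := min 1 (ENNReal.ofReal (A ^ 3 / |(z : ℝ)| ^ 3))

lemma tail_sum (A : ℕ) (hA : 1 ≤ A) (N : ℕ) :
    ∑ n ∈ Finset.range N, (A : ℝ) ^ 3 / ((n : ℝ) + A + 1) ^ 3 ≤ (A : ℝ) := by
  have hA' : (1 : ℝ) ≤ A := by exact_mod_cast hA
  have h : ∀ N : ℕ, ∑ n ∈ Finset.range N, (A : ℝ) ^ 3 / ((n : ℝ) + A + 1) ^ 3 ≤
      A - (A : ℝ) ^ 2 / (N + A) := by
    intro N
    induction N with
    | zero =>
      simp only [Finset.range_zero, Finset.sum_empty, Nat.cast_zero, zero_add]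
      rw [sq, mul_div_assoc, div_self (by positivity)]; simp
    | succ N ih =>
      rw [Finset.sum_range_succ]
      have hN : (0 : ℝ) ≤ N := by positivity
      have h1 : (A : ℝ) ^ 3 / ((N : ℝ) + A + 1) ^ 3 ≤
          (A : ℝ) ^ 2 / (N + A) - (A : ℝ) ^ 2 / (N + 1 + A) := by
        rw [div_sub_div _ _ (by positivity) (by positivity),
          div_le_div_iff₀ (by positivity) (by positivity)]
        have h2 : (A : ℝ) ^ 2 * (N + 1 + A) - (N + A) * A ^ 2 = A ^ 2 := by ring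
        rw [h2]
        have h3 : (A : ℝ) * ((N + A) * (N + 1 + A)) ≤ ((N : ℝ) + A + 1) ^ 3 := by
          have : ((N : ℝ) + A + 1) ^ 3 = (N + A + 1) * ((N + A + 1) * (N + 1 + A)) := by ring
          rw [this]
          exact mul_le_mul (by linarith) (mul_le_mul_of_nonneg_right (by linarith) (by positivity))
            (by positivity) (by positivity)
        calc (A : ℝ) ^ 3 * ((N + A) * (N + 1 + A)) = A ^ 2 * (A * ((N + A) * (N + 1 + A))) := by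
              ring
          _ ≤ _ := by gcongr
      push_cast
      linarith
  have h2 : 0 ≤ (A : ℝ) ^ 2 / (N + A) := by positivity
  linarith [h N]

lemma sum_phi_nat (A : ℕ) (hA : 1 ≤ A) : ∑' n : ℕ, phi A ((n : ℤ) + 1) ≤ 2 * A := by
  rw [← Summable.sum_add_tsum_nat_add' (k := A) ENNReal.summable]
  have h1 : ∑ i ∈ Finset.range A, phi A ((i : ℤ) + 1) ≤ A := by
    calc ∑ i ∈ Finset.range A, phi A ((i : ℤ) + 1) ≤ ∑ _i ∈ Finset.range A, (1 : ℝ≥0∞) :=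
          Finset.sum_le_sum fun i _ => min_le_left _ _
      _ = A := by simp
  have h2 : ∑' n : ℕ, phi A (((n + A : ℕ) : ℤ) + 1) ≤ A := by
    refine ENNReal.tsum_le_of_sum_range_le fun N => ?_
    calc ∑ n ∈ Finset.range N, phi A (((n + A : ℕ) : ℤ) + 1)
        ≤ ∑ n ∈ Finset.range N, ENNReal.ofReal ((A : ℝ) ^ 3 / ((n : ℝ) + A + 1) ^ 3) := by
          refine Finset.sum_le_sum fun n _ => (min_le_right _ _).trans (le_of_eq ?_)
          push_cast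
          rw [abs_of_nonneg (by positivity)]
      _ = ENNReal.ofReal (∑ n ∈ Finset.range N, (A : ℝ) ^ 3 / ((n : ℝ) + A + 1) ^ 3) :=
          (ENNReal.ofReal_sum_of_nonneg fun n _ => by positivity).symm
      _ ≤ ENNReal.ofReal A := ENNReal.ofReal_le_ofReal (tail_sum A hA N)
      _ = A := ENNReal.ofReal_natCast A
  rw [two_mul]
  exact add_le_add h1 h2

lemma sum_phi (A : ℕ) (hA : 1 ≤ A) : ∑' z : ℤ, phi A z ≤ 4 * A := by
  rw [← tsum_nat_add_neg_add_one ENNReal.summable, ENNReal.tsum_add,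
    tsum_eq_zero_add' ENNReal.summable]
  have h0 : phi A ((0 : ℕ) : ℤ) = 0 := by simp [phi]
  have h1 : ∀ n : ℕ, phi A (-((n : ℤ) + 1)) = phi A ((n : ℤ) + 1) := by
    intro n; unfold phi; rw [Int.cast_neg, abs_neg]
  rw [h0, zero_add, tsum_congr h1]
  have := sum_phi_nat A hA
  push_cast
  calc _ ≤ 2 * (A : ℝ≥0∞) + 2 * A := add_le_add this this
    _ = 4 * A := by ring

lemma sum_phi_shift (A : ℕ) (hA : 1 ≤ A) (x : ℤ) : ∑' y : ℤ, phi A (y - x) ≤ 4 * A := by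
  rw [← (Equiv.addRight x).tsum_eq]
  simpa using sum_phi A hA

lemma two_q (n : ℕ) : (2 : ℝ≥0∞) ^ n * (2⁻¹) ^ n = 1 := by
  rw [← mul_pow, ENNReal.mul_inv_cancel (by norm_num) (by norm_num), one_pow]

lemma q_sub_le (M m : ℕ) : (2⁻¹ : ℝ≥0∞) ^ (M - m) ≤ 2 ^ m * (2⁻¹) ^ M := by
  rcases le_total m M with h | h
  · obtain ⟨c, rfl⟩ := Nat.exists_eq_add_of_le h
    rw [Nat.add_sub_cancel_left, pow_add, ← mul_assoc, two_q, one_mul]
  · obtain ⟨c, rfl⟩ := Nat.exists_eq_add_of_le h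
    rw [Nat.sub_eq_zero_of_le h, pow_zero, pow_add, mul_right_comm, two_q, one_mul]
    exact one_le_pow₀ (by norm_num)

lemma q_sub_eq {M m : ℕ} (h : m ≤ M) : (2 : ℝ≥0∞) ^ m * (2⁻¹) ^ M = (2⁻¹) ^ (M - m) := by
  obtain ⟨c, rfl⟩ := Nat.exists_eq_add_of_le h
  rw [Nat.add_sub_cancel_left, pow_add, ← mul_assoc, two_q, one_mul]

lemma sum_q : ∑' n : ℕ, (2⁻¹ : ℝ≥0∞) ^ n = 2 := by
  rw [ENNReal.tsum_geometric, ENNReal.one_sub_inv_two, inv_inv]

lemma sum_qq (M : ℕ) :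
    ∑' m : ℕ, (2⁻¹ : ℝ≥0∞) ^ m * (2⁻¹) ^ (M - m) ≤ (M + 2) * (2⁻¹) ^ M := by
  rw [← Summable.sum_add_tsum_nat_add' (k := M) ENNReal.summable, add_mul]
  refine add_le_add (le_of_eq ?_) (le_of_eq ?_)
  · rw [Finset.sum_congr rfl (g := fun _ => (2⁻¹ : ℝ≥0∞) ^ M)]
    · simp
    · intro m hm
      have := Finset.mem_range.1 hm
      rw [← pow_add]; congr 1; omega
  · rw [← sum_q, ← ENNReal.tsum_mul_right, sum_q]
    refine tsum_congr fun m => ?_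
    rw [Nat.sub_eq_zero_of_le (by omega), pow_zero, mul_one, pow_add]

lemma eight_inv (m : ℕ) : (8⁻¹ : ℝ≥0∞) ^ m = (2⁻¹) ^ m * (2⁻¹) ^ m * (2⁻¹) ^ m := by
  rw [← mul_pow, ← mul_pow]
  congr 1
  rw [← ENNReal.mul_inv (by norm_num) (by norm_num), ← ENNReal.mul_inv (by norm_num) (by norm_num)]
  norm_num

lemma four_pow (m m' : ℕ) : ((4 ^ (m + m' + 2) : ℕ) : ℝ≥0∞) =
    16 * (2 ^ m * 2 ^ m) * (2 ^ m' * 2 ^ m') := by
  push_cast
  rw [← mul_pow, ← mul_pow, pow_add, pow_add]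
  norm_num
  ring

/-- the kernel of the transfer operator -/
noncomputable def gg (M : ℕ) (H : ℝ≥0∞) (s t : ℤ × ℕ) : ℝ≥0∞ :=
  if s.2 ≤ M then
    phi ((4 ^ (s.2 + t.2 + 2) : ℕ) : ℝ) (t.1 - s.1) * (8⁻¹) ^ t.2 * (H * (2⁻¹) ^ s.2)
  else 0

lemma lyap (M : ℕ) (H : ℝ≥0∞) (s : ℤ × ℕ) :
    ∑' t : ℤ × ℕ, gg M H s t * (2⁻¹) ^ (M - t.2) ≤ (64 * H * (M + 2)) * (2⁻¹) ^ (M - s.2) := by
  obtain ⟨x, m⟩ := s
  unfold gg
  by_cases hm : m ≤ M
  · simp only [hm, if_true]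
    rw [ENNReal.tsum_prod', ENNReal.tsum_comm]
    calc ∑' (m' : ℕ) (y : ℤ), phi ((4 ^ (m + m' + 2) : ℕ) : ℝ) (y - x) * (8⁻¹) ^ m' *
          (H * (2⁻¹) ^ m) * (2⁻¹) ^ (M - m')
        ≤ ∑' m' : ℕ, (64 * H * 2 ^ m) * ((2⁻¹ : ℝ≥0∞) ^ m' * (2⁻¹) ^ (M - m')) := by
          refine ENNReal.tsum_le_tsum fun m' => ?_
          rw [ENNReal.tsum_mul_right, ENNReal.tsum_mul_right, ENNReal.tsum_mul_right]
          calc _ ≤ (4 * ((4 ^ (m + m' + 2) : ℕ) : ℝ≥0∞)) * (8⁻¹) ^ m' *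
                (H * (2⁻¹) ^ m) * (2⁻¹) ^ (M - m') := by
                gcongr
                exact sum_phi_shift _ (Nat.one_le_pow _ _ (by norm_num)) x
            _ = (64 * H * 2 ^ m) * ((2⁻¹ : ℝ≥0∞) ^ m' * (2⁻¹) ^ (M - m')) *
                (2 ^ m * (2⁻¹) ^ m) * (2 ^ m' * (2⁻¹) ^ m') * (2 ^ m' * (2⁻¹) ^ m') := by
                rw [four_pow, eight_inv]; ring
            _ = _ := by rw [two_q, two_q, mul_one, mul_one, mul_one]
      _ ≤ (64 * H * 2 ^ m) * ((M + 2) * (2⁻¹) ^ M) := by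
          rw [ENNReal.tsum_mul_left]; gcongr; exact sum_qq M
      _ = _ := by rw [← q_sub_eq hm]; ring
  · simp [hm]

lemma sum_ind (R : ℕ) : ∑' x : ℤ, (if |x| ≤ R then (1 : ℝ≥0∞) else 0) = 2 * R + 1 := by
  rw [tsum_eq_sum (s := Finset.Icc (-(R : ℤ)) R)]
  · rw [Finset.sum_congr rfl (g := fun _ => (1 : ℝ≥0∞))]
    · simp only [Finset.sum_const, Int.card_Icc, nsmul_eq_mul, mul_one]
      have : ((R : ℤ) + 1 - -(R : ℤ)).toNat = 2 * R + 1 := by omega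
      rw [this]; push_cast; ring
    · intro x hx
      rw [if_pos (abs_le.2 (Finset.mem_Icc.1 hx))]
  · intro x hx
    rw [if_neg fun h => hx (Finset.mem_Icc.2 (abs_le.1 h))]

lemma sum_start (R M : ℕ) :
    ∑' s : ℤ × ℕ, (if |s.1| ≤ R then (8⁻¹ : ℝ≥0∞) ^ s.2 else 0) * (2⁻¹) ^ (M - s.2) ≤
      (2 * R + 1) * (2 * (2⁻¹) ^ M) := by
  rw [ENNReal.tsum_prod', ← sum_ind, ← ENNReal.tsum_mul_right]
  refine ENNReal.tsum_le_tsum fun x => ?_
  by_cases hx : |x| ≤ R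
  · simp only [hx, if_true, one_mul]
    calc ∑' m : ℕ, (8⁻¹ : ℝ≥0∞) ^ m * (2⁻¹) ^ (M - m) ≤ ∑' m : ℕ, (2⁻¹ : ℝ≥0∞) ^ m * (2⁻¹) ^ M := by
          refine ENNReal.tsum_le_tsum fun m => ?_
          calc (8⁻¹ : ℝ≥0∞) ^ m * (2⁻¹) ^ (M - m) ≤ (8⁻¹ : ℝ≥0∞) ^ m * (2 ^ m * (2⁻¹) ^ M) := by
                gcongr; exact q_sub_le M m
            _ = (2⁻¹ : ℝ≥0∞) ^ m * (2⁻¹) ^ M * (2⁻¹) ^ m * (2 ^ m * (2⁻¹) ^ m) := by
                rw [eight_inv]; ring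
            _ ≤ (2⁻¹ : ℝ≥0∞) ^ m * (2⁻¹) ^ M * 1 * 1 := by
                rw [two_q]; gcongr
                exact pow_le_one₀ (by simp) (by simp)
            _ = _ := by ring
      _ = _ := by rw [ENNReal.tsum_mul_right, sum_q]
  · simp [hx]

end Pool.Agent.H120Z.SFP
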